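import Mathlib
import Pool.Agent.H.MP_1d7d98_al.F

namespace Pool.Agent.Results.MP_1d7d98_al.No

open Pool.Agent.H.MP_1d7d98_al

theorem result : ∃ (G : Type) (_ : Group G) (S : Set G) (H : Subgroup G) (T : Set H),
    S.Finite ∧ Subgroup.closure S = ⊤ ∧ T.Finite ∧ Subgroup.closure T = ⊤ ∧
    (∀ g : G, g ∉ H → {h : G | h ∈ H ∧ g⁻¹ * h * g ∈ H}.Finite) ∧
    Nonempty (Bd T) ∧
    (∃ φ : Bd T ≃ₜ Lim S H, ∀ γ : MRay T, ∃ β : MRay S, (φ (Quot.mk _ γ)).1 = Quot.mk _ β ∧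
      Near S (Subtype.val '' Set.range γ.1) (Set.range β.1)) ∧
    ¬ HypEmb H :=
  ⟨GG, inferInstance, dat.S, dat.H, dat.T, Set.toFinite ({_, _, _, _} : Set GG), dat.hS,
    (Set.toFinite ({_, _, _} : Set GG)).preimage Subtype.val_injective.injOn, dat.hT,
    fun _ hg => (Set.finite_singleton 1).subset fun _ hh => Dat.mal hh.1 hg hh.2,
    Dat.nonempty, Dat.homeo, Dat.not_he⟩

end Pool.Agent.Results.MP_1d7d98_al.No
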